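import Pool.Agent.Run7.h417.CQ.Main

set_option autoImplicit false

/-!
# MP_b29168_gt: the constant `√2` is not best possible

Every plane convex set of area one is contained in a convex quadrilateral of area at most `c`, for
a constant `c < √2`. This is the negated form of Q1; it implies the negated form of Q2.
-/

namespace Pool.Agent.Results.MP_b29168_gt.BelowSqrtTwo

open MeasureTheory

/-- `Q` is a (nondegenerate) convex quadrilateral: the convex hull of four points `A, B, C, D` such
that each of the triangles `ABC`, `BCD`, `CDA`, `DAB` is positively oriented -/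
def IsConvexQuadrilateral (Q : Set (ℝ × ℝ)) : Prop :=
  ∃ A B C D : ℝ × ℝ, Run7.h417.CQ.Quad A B C D ∧ Q = convexHull ℝ {A, B, C, D}

theorem result : ∃ c : ℝ, c < √2 ∧ ∀ K : Set (ℝ × ℝ), Convex ℝ K → volume K = 1 →
    ∃ Q : Set (ℝ × ℝ), IsConvexQuadrilateral Q ∧ K ⊆ Q ∧ volume Q ≤ ENNReal.ofReal c := by
  obtain ⟨c, hc, h⟩ := Run7.h417.CQ.main
  refine ⟨c, hc, fun K hK hv => ?_⟩
  obtain ⟨A, B, C, D, h1, h2, h3⟩ := h K hK hv
  exact ⟨_, ⟨A, B, C, D, h1, rfl⟩, h2, h3⟩

end Pool.Agent.Results.MP_b29168_gt.BelowSqrtTwo
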